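import Mathlib

set_option autoImplicit false

/-!
Linear matroids over fields of characteristic zero are representable over `ℂ`.
-/

namespace Pool.Agent.H23TC

open Cardinal

/-- a countable field of characteristic zero embeds into `ℂ` -/
theorem embed (K : Type) [Field K] [CharZero K] (h : #K ≤ ℵ₀) : Nonempty (K →+* ℂ) := by
  let P := MvPolynomial ℝ K
  let Fr := FractionRing P
  let A := AlgebraicClosure Fr
  have h1 : #P = 𝔠 := by
    change #(MvPolynomial ℝ K) = 𝔠
    rw [MvPolynomial.cardinalMk_eq_max, mk_real]
    apply le_antisymm
    · exact sup_le (sup_le (h.trans aleph0_le_continuum) le_rfl) aleph0_le_continuum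
    · exact le_sup_of_le_left le_sup_right
  have h2 : #Fr = 𝔠 := by
    rw [← h1]
    exact Cardinal.mk_fractionRing P
  have h3 : #A ≤ 𝔠 := by
    refine (Algebra.IsAlgebraic.cardinalMk_le_max Fr A).trans ?_
    rw [h2]
    exact max_le le_rfl aleph0_le_continuum
  have h4 : 𝔠 ≤ #A := by
    rw [← h2]
    exact Cardinal.mk_le_of_injective (algebraMap Fr A).injective
  let f : K →+* A := (algebraMap Fr A).comp ((algebraMap P Fr).comp MvPolynomial.C)
  have hc : CharZero A := charZero_of_injective_ringHom f.injective
  have h5 : #A = #ℂ := by rw [mk_complex]; exact le_antisymm h3 h4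
  obtain ⟨e⟩ := IsAlgClosed.ringEquiv_of_equiv_of_charZero (K := A) (L := ℂ)
    (lt_of_lt_of_le aleph0_lt_continuum h4) (Cardinal.eq.1 h5)
  exact ⟨(e : A →+* ℂ).comp f⟩

/-- linear independence of rows does not change under a field homomorphism -/
theorem rows {K L : Type*} [Field K] [Field L] (σ : K →+* L) {ι : Type*} [Fintype ι] {d : ℕ}
    (w : ι → Fin d → K) :
    LinearIndependent K w ↔ LinearIndependent L (fun i j => σ (w i j)) := by
  classical
  constructor
  · intro hw
    let f : (ι → K) →ₗ[K] (Fin d → K) := Fintype.linearCombination K w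
    have hf : LinearMap.ker f = ⊥ := by
      rw [LinearMap.ker_eq_bot]
      exact hw.fintypeLinearCombination_injective
    obtain ⟨g, hg⟩ := LinearMap.exists_leftInverse_of_injective f hf
    have h1 : ∀ i, g (w i) = Pi.single i 1 := by
      intro i
      have h2 : f (Pi.single i 1) = w i := by
        simp [f, Fintype.linearCombination_apply_single]
      rw [← h2]
      exact LinearMap.congr_fun hg (Pi.single i 1)
    have h3 : ∀ i l, ∑ j, w i j * g (fun k => if j = k then 1 else 0) l =
        if l = i then 1 else 0 := by
      intro i l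
      have h4 := congrFun (h1 i) l
      rw [LinearMap.pi_apply_eq_sum_univ g (w i)] at h4
      rw [Finset.sum_apply] at h4
      simp only [Pi.smul_apply, smul_eq_mul] at h4
      rw [h4, Pi.single_apply]
    rw [Fintype.linearIndependent_iff]
    intro c hc l
    have h5 : ∀ j, ∑ i, c i * σ (w i j) = 0 := by
      intro j
      have := congrFun hc j
      simpa [Finset.sum_apply] using this
    have h6 : ∑ j, (∑ i, c i * σ (w i j)) * σ (g (fun k => if j = k then 1 else 0) l) = 0 := by
      apply Finset.sum_eq_zero
      intro j _
      rw [h5 j, zero_mul]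
    have h7 : ∑ j, (∑ i, c i * σ (w i j)) * σ (g (fun k => if j = k then 1 else 0) l) =
        ∑ i, c i * σ (∑ j, w i j * g (fun k => if j = k then 1 else 0) l) := by
      simp only [map_sum, map_mul, Finset.sum_mul, Finset.mul_sum]
      rw [Finset.sum_comm]
      apply Finset.sum_congr rfl
      intro i _
      apply Finset.sum_congr rfl
      intro j _
      ring
    rw [h7] at h6
    simp only [h3] at h6
    simpa using h6
  · intro hw
    rw [Fintype.linearIndependent_iff] at hw ⊢
    intro c hc i
    have := hw (fun i => σ (c i)) (by
      funext j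
      have h1 := congrFun hc j
      simp only [Finset.sum_apply, Pi.smul_apply, smul_eq_mul, Pi.zero_apply] at h1 ⊢
      rw [← map_zero σ, ← h1, map_sum]
      simp only [map_mul]) i
    exact (map_eq_zero σ).1 this

/-- package C -/
theorem to_complex {L : Type} [Field L] [CharZero L] {V : Type} [AddCommGroup V] [Module L V]
    {n : ℕ} (v : Fin n → V) : ∃ (m : ℕ) (w : Fin n → Fin m → ℂ), ∀ F : Finset (Fin n),
      LinearIndependent L (fun i : F => v i) ↔ LinearIndependent ℂ (fun i : F => w i) := by
  classical
  let W := Submodule.span L (Set.range v)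
  have hfin : Module.Finite L W := Module.Finite.span_of_finite L (Set.finite_range v)
  let d := Module.finrank L W
  let B : Module.Basis (Fin d) L W := Module.finBasis L W
  let u : Fin n → W := fun i => ⟨v i, Submodule.subset_span ⟨i, rfl⟩⟩
  let a : Fin n → Fin d → L := fun i => B.equivFun (u i)
  have h1 : ∀ F : Finset (Fin n), LinearIndependent L (fun i : F => v i) ↔
      LinearIndependent L (fun i : F => a i) := by
    intro F
    have h2 : LinearIndependent L (fun i : F => v i) ↔ LinearIndependent L (fun i : F => u i) :=
      LinearMap.linearIndependent_iff W.subtype (v := fun i : F => u i)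
        (LinearMap.ker_eq_bot.2 W.subtype_injective)
    have h3 : LinearIndependent L (fun i : F => a i) ↔ LinearIndependent L (fun i : F => u i) :=
      LinearMap.linearIndependent_iff (B.equivFun : W →ₗ[L] (Fin d → L))
        (v := fun i : F => u i) (LinearMap.ker_eq_bot.2 B.equivFun.injective)
    rw [h2, h3]
  let K := Subfield.closure (Set.range fun p : Fin n × Fin d => a p.1 p.2)
  have hK : #K ≤ ℵ₀ := by
    refine (Subfield.cardinalMk_closure_le_max _).trans (max_le ?_ le_rfl)
    exact (Set.finite_range _).lt_aleph0.le
  have : CharZero K := charZero_of_injective_ringHom (f := (Nat.castRingHom K)) (by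
    intro x y hxy
    have := congrArg (fun z : K => (z : L)) hxy
    simpa using this)
  obtain ⟨σ⟩ := embed K hK
  let a' : Fin n → Fin d → K := fun i j => ⟨a i j, Subfield.subset_closure ⟨(i, j), rfl⟩⟩
  refine ⟨d, fun i j => σ (a' i j), fun F => ?_⟩
  rw [h1 F, ← rows σ (fun i : F => a' i), rows K.subtype (fun i : F => a' i)]
  rfl

end Pool.Agent.H23TC
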